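import Pool.Agent.Q176.TC.C10

/-!
# A measurably non-trivial smooth time-change of a Heisenberg nilflow which is not weakly mixing

The nilflow is generated by `X = (1, a, 0)` with a Liouville number `a`; it is uniquely ergodic. The
function `α` comes from the base torus; it is not measurably cohomologous to a constant on the
nilmanifold, and the time-change has a measurable eigenfunction of modulus one. So the answers to
both questions (weak mixing and mixing) are negative.
-/

open MeasureTheory Q176.TC

set_option autoImplicit false

/-- On the Heisenberg nilmanifold there are a uniquely ergodic parabolic nilflow, generated by `X`,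
and a smooth function `α > 0` which is not measurably cohomologous to a constant, such that the
time-change `ψ` of the nilflow with the function `α`, a flow which preserves the probability
measure proportional to `α μ`, has a measurable eigenfunction of modulus one with the eigenvalue
`e^{2πi}` (in the sense `f ∘ ψ_τ = e^{2πiτ} f`), and is neither weakly mixing nor mixing. -/
theorem Pool.Agent.Results.MP_442888_an.LiouvilleTimeChange.result :
    ∃ (X : ℝ × ℝ × ℝ) (μ : Measure Nil) (α : Nil → ℝ) (ψ : ℝ → Nil → Nil),
      Parabolic X ∧ IsHaar μ ∧ UniquelyErgodic X μ ∧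
      Smooth α ∧ (∀ w, 0 < α w) ∧ ¬ MeasurablyTrivial X μ α ∧
      IsTimeChange X α ψ ∧ (∀ σ τ w, ψ (σ + τ) w = ψ τ (ψ σ w)) ∧
      (∀ τ, MeasurePreserving (ψ τ) (weighted μ α) (weighted μ α)) ∧
      (∃ f : Nil → ℂ, Measurable f ∧ (∀ᵐ w ∂(weighted μ α), ‖f w‖ = 1) ∧
        ∀ τ w, f (ψ τ w) = Complex.exp (2 * Real.pi * τ * Complex.I) * f w) ∧
      ¬ WeaklyMixing ψ (weighted μ α) ∧ ¬ Mixing ψ (weighted μ α) := by
  refine ⟨XX aa, haar, al, tc al_pos (XX aa), Or.inl one_ne_zero, isHaar_haar,
    uniquelyErgodic aa_irrational, al_smooth, fun w => ?_, not_trivial, tc_isTimeChange al_pos,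
    fun σ τ w => (tc_add al_pos σ τ w).symm, mp_tc al_pos, ⟨ff, ff_meas, isEF.norm, isEF.eig⟩,
    isEF.not_weaklyMixing, isEF.not_mixing⟩
  have := al_low w
  linarith
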